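import Mathlib
import Pool.Agent.Helper23.IM.Defs
import Pool.Agent.Helper23.IM.Final

/-!
# The group of units of a torsion one-relator inverse monoid is finitely presented

Let `A` be a finite alphabet, `r` a word over `A ∪ A⁻¹` and `k > 1`.  The group of units of
`Inv⟨A | r ^ k = 1⟩` is finitely presented.  More generally this holds for `Inv⟨A | w = 1⟩` as soon
as the word `w` represents in the free group on `A` the element `r ^ k` for some word `r` and some
`k > 1` (the case where `w` is freely trivial is included).
-/

namespace Pool.Agent.Results.MP_ad5e4d_al.UnitsFinitelyPresented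

open IM

theorem result {A : Type*} [Finite A] (w r : List (A × Bool)) (k : ℕ) (hk : 1 < k)
    (hw : FreeGroup.mk w = FreeGroup.mk r ^ k) :
    Group.IsFinitelyPresented (OneRelInverseMonoid w)ˣ :=
  IM.units_fp w (FreeGroup.mk r) k hk hw

/-- The literal case `w = r ^ k` (concatenation of `k` copies of the word `r`). -/
theorem literal {A : Type*} [Finite A] (r : List (A × Bool)) (k : ℕ) (hk : 1 < k) :
    Group.IsFinitelyPresented (OneRelInverseMonoid (List.replicate k r).flatten)ˣ :=
  result _ r k hk (IM.mk_rep k r)

end Pool.Agent.Results.MP_ad5e4d_al.UnitsFinitelyPresented
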